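import Pool.Agent.Helper26.LU.Goals

/-! Packet LU-S1: the iterates of the translation are smooth. -/

namespace Pool.Agent.Helper51.LU

open Matrix Pool.Agent.Helper26.LU

theorem gS1 : G_S1 := by
  intro N k
  induction k with
  | zero =>
    have : (fun x : Par N => Ti x.1 (Matrix.of x.2 : M3) 0) = fun _ => (0 : Fin 3 → ℝ) := by
      funext x
      rfl
    rw [this]
    exact contDiff_const
  | succ k ih =>
    have h1 : ∀ i : Fin 3, ContDiff ℝ 2 (fun x : Par N => Ti x.1 (Matrix.of x.2 : M3) k i) :=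
      fun i => contDiff_pi.1 ih i
    have h2 : ∀ (j : Fin 4) (i : Fin 3),
        ContDiff ℝ 2 (fun x : Par N => ((Matrix.of x.2 : M3) *ᵥ eA ℝ j) i) := by
      intro j i
      have : (fun x : Par N => ((Matrix.of x.2 : M3) *ᵥ eA ℝ j) i)
          = fun x : Par N => ∑ l, x.2 i l * eA ℝ j l := by
        funext x
        rfl
      rw [this]
      refine ContDiff.sum fun l _ => ?_
      have h3 : ContDiff ℝ 2 (fun x : Par N => x.2 i l) :=
        contDiff_pi.1 (contDiff_pi.1 contDiff_snd i) l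
      exact h3.mul contDiff_const
    have h4 : ∀ t : Idx N, ContDiff ℝ 2 (fun x : Par N => x.1 t) :=
      fun t => contDiff_pi.1 contDiff_fst t
    refine contDiff_pi.2 fun i => ?_
    have : (fun x : Par N => Ti x.1 (Matrix.of x.2 : M3) (k + 1) i)
        = fun x : Par N => (3 / 8 : ℝ) * ∑ j, (∑ t : Idx N, x.1 t *
          ((((Matrix.of x.2 : M3) *ᵥ eA ℝ j) 0 + Ti x.1 (Matrix.of x.2 : M3) k 0) ^ (t.1.1 : ℕ) *
          (((Matrix.of x.2 : M3) *ᵥ eA ℝ j) 1 + Ti x.1 (Matrix.of x.2 : M3) k 1) ^ (t.1.2.1 : ℕ) *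
          (((Matrix.of x.2 : M3) *ᵥ eA ℝ j) 2 + Ti x.1 (Matrix.of x.2 : M3) k 2) ^
            (t.1.2.2 : ℕ))) * ((Matrix.of x.2 : M3) *ᵥ eA ℝ j) i := by
      funext x
      rfl
    rw [this]
    refine contDiff_const.mul (ContDiff.sum fun j _ => ?_)
    refine ContDiff.mul (ContDiff.sum fun t _ => ?_) (h2 j i)
    refine (h4 t).mul ?_
    exact ((((h2 j 0).add (h1 0)).pow _).mul (((h2 j 1).add (h1 1)).pow _)).mul
      (((h2 j 2).add (h1 2)).pow _)

end Pool.Agent.Helper51.LU
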