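import Pool.Agent.Helper26.LU.Goals

/-! Packet LU-S2: the iterates `Rk` are smooth at `(0, Q₀)`. -/

namespace Pool.Agent.Helper51.LU

open Matrix Pool.Agent.Helper26.LU

section general

variable {E : Type} [NormedAddCommGroup E] [NormedSpace ℝ E] {x₀ : E}

theorem cd_dot {f g : E → V} (hf : ContDiffAt ℝ 2 f x₀) (hg : ContDiffAt ℝ 2 g x₀) :
    ContDiffAt ℝ 2 (fun x => f x ⬝ᵥ g x) x₀ := by
  have : (fun x => f x ⬝ᵥ g x) = fun x => ∑ i, f x i * g x i := rfl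
  rw [this]
  exact ContDiffAt.sum fun i _ => (contDiffAt_pi.1 hf i).mul (contDiffAt_pi.1 hg i)

theorem cd_proj {f : E → V} (hf : ContDiffAt ℝ 2 f x₀) (h0 : f x₀ ⬝ᵥ f x₀ ≠ 0) :
    ContDiffAt ℝ 2 (fun x => proj (f x)) x₀ := by
  have h1 : ContDiffAt ℝ 2 (fun x => nrm (f x)) x₀ := (cd_dot hf hf).sqrt h0
  have h2 : nrm (f x₀) ≠ 0 := by
    intro h
    apply h0
    rw [← nrm_sq, h]
    norm_num
  exact (h1.inv h2).smul hf

theorem cd_mulVec {g : E → Fin 3 → Fin 3 → ℝ} {f : E → V} (hg : ContDiffAt ℝ 2 g x₀)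
    (hf : ContDiffAt ℝ 2 f x₀) :
    ContDiffAt ℝ 2 (fun x => (Matrix.of (g x) : M3) *ᵥ f x) x₀ := by
  refine contDiffAt_pi.2 fun i => ?_
  have : (fun x => ((Matrix.of (g x) : M3) *ᵥ f x) i) = fun x => ∑ l, g x i l * f x l := rfl
  rw [this]
  exact ContDiffAt.sum fun l _ =>
    (contDiffAt_pi.1 (contDiffAt_pi.1 hg i) l).mul (contDiffAt_pi.1 hf l)

theorem cd_mul {g h : E → Fin 3 → Fin 3 → ℝ} (hg : ContDiffAt ℝ 2 g x₀)
    (hh : ContDiffAt ℝ 2 h x₀) :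
    ContDiffAt ℝ 2 (fun x => (fun i j => ((Matrix.of (g x) : M3) * Matrix.of (h x)) i j :
      Fin 3 → Fin 3 → ℝ)) x₀ := by
  refine contDiffAt_pi.2 fun i => contDiffAt_pi.2 fun j => ?_
  have : (fun x => ((Matrix.of (g x) : M3) * Matrix.of (h x)) i j)
      = fun x => ∑ l, g x i l * h x l j := by
    funext x
    rw [Matrix.mul_apply]
    rfl
  rw [this]
  exact ContDiffAt.sum fun l _ =>
    (contDiffAt_pi.1 (contDiffAt_pi.1 hg i) l).mul (contDiffAt_pi.1 (contDiffAt_pi.1 hh l) j)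

theorem cd_crossM {f : E → V} (hf : ContDiffAt ℝ 2 f x₀) :
    ContDiffAt ℝ 2 (fun x => (fun i j => crossM (f x) i j : Fin 3 → Fin 3 → ℝ)) x₀ := by
  have h := contDiffAt_pi.1 hf
  refine contDiffAt_pi.2 fun i => contDiffAt_pi.2 fun j => ?_
  fin_cases i <;> fin_cases j <;> simp [crossM] <;>
    first | exact contDiffAt_const | exact h _ | exact (h _).neg

theorem cd_cross {f g : E → V} (hf : ContDiffAt ℝ 2 f x₀) (hg : ContDiffAt ℝ 2 g x₀) :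
    ContDiffAt ℝ 2 (fun x => crossProduct (f x) (g x)) x₀ := by
  have h1 := contDiffAt_pi.1 hf
  have h2 := contDiffAt_pi.1 hg
  refine contDiffAt_pi.2 fun i => ?_
  fin_cases i <;> simp [cross_apply] <;>
    exact ((h1 _).mul (h2 _)).sub ((h1 _).mul (h2 _))

theorem cd_Bm {p q : E → V} (hp : ContDiffAt ℝ 2 p x₀) (hq : ContDiffAt ℝ 2 q x₀)
    (h0 : 1 + p x₀ ⬝ᵥ q x₀ ≠ 0) :
    ContDiffAt ℝ 2 (fun x => (fun i j => Bm (p x) (q x) i j : Fin 3 → Fin 3 → ℝ)) x₀ := by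
  have h1 : ContDiffAt ℝ 2 (fun x => (1 + p x ⬝ᵥ q x)⁻¹) x₀ :=
    (contDiffAt_const.add (cd_dot hp hq)).inv h0
  have h2 := cd_crossM (cd_cross hp hq)
  have h3 := cd_mul h2 h2
  refine contDiffAt_pi.2 fun i => contDiffAt_pi.2 fun j => ?_
  have : (fun x => Bm (p x) (q x) i j) = fun x => (1 : M3) i j +
      crossM (crossProduct (p x) (q x)) i j + (1 + p x ⬝ᵥ q x)⁻¹ *
      (crossM (crossProduct (p x) (q x)) * crossM (crossProduct (p x) (q x))) i j := by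
    funext x
    simp [Bm]
  rw [this]
  exact (contDiffAt_const.add (contDiffAt_pi.1 (contDiffAt_pi.1 h2 i) j)).add
    (h1.mul (contDiffAt_pi.1 (contDiffAt_pi.1 h3 i) j))

theorem cd_transpose {g : E → Fin 3 → Fin 3 → ℝ} (hg : ContDiffAt ℝ 2 g x₀) :
    ContDiffAt ℝ 2 (fun x => (fun i j => g x j i : Fin 3 → Fin 3 → ℝ)) x₀ :=
  contDiffAt_pi.2 fun i => contDiffAt_pi.2 fun j => contDiffAt_pi.1 (contDiffAt_pi.1 hg j) i

theorem cd_yv (h1 : G_S1) {N : ℕ} (M : ℕ) (j : Fin 4) {a : E → Idx N → ℝ}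
    {g : E → Fin 3 → Fin 3 → ℝ} (ha : ContDiffAt ℝ 2 a x₀) (hg : ContDiffAt ℝ 2 g x₀) :
    ContDiffAt ℝ 2 (fun x => yv M (a x) (Matrix.of (g x)) j) x₀ := by
  have h3 : ContDiffAt ℝ 2 (fun x : Par N => Ti x.1 (Matrix.of x.2 : M3) M) (a x₀, g x₀) :=
    (h1 N M).contDiffAt
  have h2 : ContDiffAt ℝ 2 (fun x => Ti (a x) (Matrix.of (g x) : M3) M) x₀ :=
    ContDiffAt.comp (f := fun x => (a x, g x)) x₀ h3 (ha.prodMk hg)
  exact (cd_mulVec hg contDiffAt_const).add h2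

end general

theorem gS2 (h1 : G_S1) : G_S2 := by
  intro N M k Q hQ
  induction k with
  | zero => exact contDiffAt_snd
  | succ k ih =>
    have hR : Rk M (0 : Idx N → ℝ) Q k = Q := Rk_zero M hQ k
    have hy := cd_yv h1 M 0 (contDiffAt_fst (p := ((0, Q) : Par N))) ih
    have hyv : yv M ((0, Q) : Par N).1 (Matrix.of (fun i j =>
        Rk M ((0, Q) : Par N).1 (Matrix.of ((0, Q) : Par N).2 : M3) k i j)) 0 = Q *ᵥ e 0 := by
      have : yv M (0 : Idx N → ℝ) (Rk M (0 : Idx N → ℝ) Q k) 0 = Q *ᵥ e 0 := by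
        rw [hR, yv_zero]
      exact this
    have hs : Q *ᵥ e 0 ∈ sph := mulVec_sph hQ (e_sph 0)
    have hs1 : (Q *ᵥ e 0) ⬝ᵥ (Q *ᵥ e 0) = 1 := hs
    have hq := cd_proj hy (by rw [hyv, hs1]; norm_num)
    have hp := cd_mulVec ih (contDiffAt_const (c := e 0))
    have hB := cd_Bm hp hq (by
      have e1 : (Matrix.of (fun i j =>
        Rk M ((0, Q) : Par N).1 (Matrix.of ((0, Q) : Par N).2 : M3) k i j) : M3) *ᵥ e 0
          = Q *ᵥ e 0 := by
        have : Rk M (0 : Idx N → ℝ) Q k *ᵥ e 0 = Q *ᵥ e 0 := by rw [hR]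
        exact this
      rw [e1, hyv, proj_self hs, hs1]
      norm_num)
    exact cd_mul (cd_transpose hB) contDiffAt_snd

end Pool.Agent.Helper51.LU
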