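import Pool.Agent.Helper26.LU.Goals

/-! Packet LU-D4: the polynomial part is controlled by the coefficients of degree `≠ 1`. -/

namespace Pool.Agent.Helper51.LU

open Matrix Pool.Agent.Helper26.LU

theorem sum_Re (R : M3) (i : Fin 3) : ∑ j, (R *ᵥ e j) i = 0 := by
  have h : ∑ j, R *ᵥ e j = 0 := by
    rw [← Matrix.mulVec_sum, e_sum, Matrix.mulVec_zero]
  have := congrFun h i
  rw [Finset.sum_apply] at this
  exact this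

theorem sum_mon_deg_one {N : ℕ} (t : Idx N) (ht : dg t = 1) (R : M3) :
    ∑ j, mon t (R *ᵥ e j) = 0 := by
  have h : (t.1.1 : ℕ) + (t.1.2.1 : ℕ) + (t.1.2.2 : ℕ) = 1 := ht
  have h3 : ((t.1.1 : ℕ) = 1 ∧ (t.1.2.1 : ℕ) = 0 ∧ (t.1.2.2 : ℕ) = 0) ∨
      ((t.1.1 : ℕ) = 0 ∧ (t.1.2.1 : ℕ) = 1 ∧ (t.1.2.2 : ℕ) = 0) ∨
      ((t.1.1 : ℕ) = 0 ∧ (t.1.2.1 : ℕ) = 0 ∧ (t.1.2.2 : ℕ) = 1) := by omega
  have e1 : ∀ j, mon t (R *ᵥ e j) = (R *ᵥ e j) 0 ^ (t.1.1 : ℕ) *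
      (R *ᵥ e j) 1 ^ (t.1.2.1 : ℕ) * (R *ᵥ e j) 2 ^ (t.1.2.2 : ℕ) := fun j => rfl
  rcases h3 with ⟨a, b, c⟩ | ⟨a, b, c⟩ | ⟨a, b, c⟩
  · rw [← sum_Re R 0]
    exact Finset.sum_congr rfl fun j _ => by rw [e1, a, b, c]; ring
  · rw [← sum_Re R 1]
    exact Finset.sum_congr rfl fun j _ => by rw [e1, a, b, c]; ring
  · rw [← sum_Re R 2]
    exact Finset.sum_congr rfl fun j _ => by rw [e1, a, b, c]; ring

theorem sum_ev_le {N : ℕ} (a : Idx N → ℝ) {σ : ℝ} (hσ : 0 ≤ σ)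
    (h : ∀ α, dg α ≠ 1 → |a α| ≤ σ) {R : M3} (hR : R ∈ SO3) :
    |∑ j, ev a (R *ᵥ e j)| ≤ 4 * (Fintype.card (Idx N) : ℝ) * σ := by
  have e1 : ∑ j, ev a (R *ᵥ e j) = ∑ t : Idx N, a t * ∑ j, mon t (R *ᵥ e j) := by
    unfold ev
    rw [Finset.sum_comm]
    exact Finset.sum_congr rfl fun t _ => by rw [Finset.mul_sum]
  rw [e1]
  refine (Finset.abs_sum_le_sum_abs _ _).trans ?_
  calc ∑ t : Idx N, |a t * ∑ j, mon t (R *ᵥ e j)| ≤ ∑ _t : Idx N, 4 * σ := by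
        refine Finset.sum_le_sum fun t _ => ?_
        by_cases ht : dg t = 1
        · rw [sum_mon_deg_one t ht R, mul_zero, abs_zero]
          linarith
        · rw [abs_mul, mul_comm 4 σ]
          refine mul_le_mul (h t ht) ?_ (abs_nonneg _) hσ
          refine (Finset.abs_sum_le_sum_abs _ _).trans ?_
          calc ∑ j : Fin 4, |mon t (R *ᵥ e j)| ≤ ∑ _j : Fin 4, (1 : ℝ) := by
                refine Finset.sum_le_sum fun j _ => ?_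
                have := mon_bound t (le_refl (1 : ℝ)) (norm_mulVec_e hR j)
                rwa [one_pow] at this
            _ = 4 := by simp
    _ = 4 * (Fintype.card (Idx N) : ℝ) * σ := by
        rw [Finset.sum_const, nsmul_eq_mul, Finset.card_univ]
        ring

theorem gD4 : G_D4 := by
  intro N M
  obtain ⟨C, hC, hT⟩ := Ti_bound N M
  obtain ⟨n, hn⟩ : ∃ n : ℝ, n = (Fintype.card (Idx N) : ℝ) := ⟨_, rfl⟩
  have hn0 : 0 ≤ n := by rw [hn]; positivity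
  obtain ⟨K1, hK1⟩ : ∃ K : ℝ, K = n * (1 + C) ^ N := ⟨_, rfl⟩
  obtain ⟨K2, hK2⟩ : ∃ K : ℝ, K = n * (3 * (N : ℝ) * (1 + C) ^ (3 * N)) * C := ⟨_, rfl⟩
  have hK10 : 0 ≤ K1 := by rw [hK1]; positivity
  have hK20 : 0 ≤ K2 := by rw [hK2]; positivity
  refine ⟨4 * n + 4 * K2 + 6 * K1 ^ 2 + 1, by positivity, ?_⟩
  intro a σ ha hσ hd R hR
  have ha0 := norm_nonneg a
  have hTa := hT a ha R hR
  have hTC : ‖Ti a R M‖ ≤ C := hTa.trans (by nlinarith)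
  have hB : (1 : ℝ) ≤ 1 + C := by linarith
  have hz : ∀ j, ‖R *ᵥ e j + Ti a R M‖ ≤ 1 + C := fun j =>
    (norm_add_le _ _).trans (add_le_add (norm_mulVec_e hR j) hTC)
  have hF : ∀ j, |Fv M a R j| ≤ K1 * ‖a‖ := by
    intro j
    have := ev_bound a hB (hz j)
    rw [← hn, ← hK1] at this
    exact this
  have hG : ∀ j, |Fv M a R j - ev a (R *ᵥ e j)| ≤ K2 * ‖a‖ ^ 2 := by
    intro j
    have h1 := ev_lip a hB (hz j) ((norm_mulVec_e hR j).trans hB)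
    rw [← hn, add_sub_cancel_left] at h1
    have h2 : |Fv M a R j - ev a (R *ᵥ e j)| ≤
        n * (3 * (N : ℝ) * (1 + C) ^ (3 * N)) * ‖a‖ * ‖Ti a R M‖ := h1
    refine h2.trans ?_
    calc n * (3 * (N : ℝ) * (1 + C) ^ (3 * N)) * ‖a‖ * ‖Ti a R M‖
        ≤ n * (3 * (N : ℝ) * (1 + C) ^ (3 * N)) * ‖a‖ * (C * ‖a‖) :=
          mul_le_mul_of_nonneg_left hTa (by positivity)
      _ = K2 * ‖a‖ ^ 2 := by rw [hK2]; ring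
  have hE := sum_ev_le a hσ hd hR
  rw [← hn] at hE
  have h1 : |∑ j, Fv M a R j - ∑ j, ev a (R *ᵥ e j)| ≤ 4 * (K2 * ‖a‖ ^ 2) := by
    rw [← Finset.sum_sub_distrib]
    refine (Finset.abs_sum_le_sum_abs _ _).trans ?_
    calc ∑ j : Fin 4, |Fv M a R j - ev a (R *ᵥ e j)| ≤ ∑ _j : Fin 4, K2 * ‖a‖ ^ 2 :=
          Finset.sum_le_sum fun j _ => hG j
      _ = 4 * (K2 * ‖a‖ ^ 2) := by simp
  have h2 : |∑ j, Fv M a R j| ≤ 4 * (K1 * ‖a‖) := by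
    refine (Finset.abs_sum_le_sum_abs _ _).trans ?_
    calc ∑ j : Fin 4, |Fv M a R j| ≤ ∑ _j : Fin 4, K1 * ‖a‖ :=
          Finset.sum_le_sum fun j _ => hF j
      _ = 4 * (K1 * ‖a‖) := by simp
  have h3 : ∑ j, Fv M a R j ^ 2 ≤ 4 * (K1 * ‖a‖) ^ 2 := by
    calc ∑ j : Fin 4, Fv M a R j ^ 2 ≤ ∑ _j : Fin 4, (K1 * ‖a‖) ^ 2 := by
          refine Finset.sum_le_sum fun j _ => ?_
          rw [← sq_abs]
          exact pow_le_pow_left₀ (abs_nonneg _) (hF j) 2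
      _ = 4 * (K1 * ‖a‖) ^ 2 := by simp
  have h4 : 0 ≤ ∑ j, Fv M a R j ^ 2 := Finset.sum_nonneg fun j _ => sq_nonneg _
  have h5 : (∑ j, Fv M a R j) ^ 2 ≤ (4 * (K1 * ‖a‖)) ^ 2 := by
    rw [← sq_abs]
    exact pow_le_pow_left₀ (abs_nonneg _) h2 2
  have h6 := sq_nonneg (∑ j, Fv M a R j)
  have hPh : Ph M a R = ∑ j, Fv M a R j - (3 / 16 : ℝ) *
      (4 * ∑ j, Fv M a R j ^ 2 - (∑ j, Fv M a R j) ^ 2) := rfl
  rw [hPh]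
  obtain ⟨s, hs⟩ : ∃ s, s = ∑ j, Fv M a R j := ⟨_, rfl⟩
  obtain ⟨q, hq⟩ : ∃ q, q = ∑ j, Fv M a R j ^ 2 := ⟨_, rfl⟩
  obtain ⟨v, hv⟩ : ∃ v, v = ∑ j, ev a (R *ᵥ e j) := ⟨_, rfl⟩
  rw [← hs, ← hq]
  rw [← hs, ← hv] at h1
  rw [← hq] at h3 h4
  rw [← hs] at h5 h6
  rw [← hv] at hE
  obtain ⟨w, hw⟩ : ∃ w, w = (K1 * ‖a‖) ^ 2 := ⟨_, rfl⟩
  have h5' : s ^ 2 ≤ 16 * w := by rw [hw]; nlinarith
  rw [← hw] at h3
  have hw2 : w = K1 ^ 2 * ‖a‖ ^ 2 := by rw [hw]; ring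
  have hx := abs_le.1 h1
  have hy := abs_le.1 hE
  have hp1 : 0 ≤ K2 * ‖a‖ ^ 2 := by positivity
  have hp2 : 0 ≤ K1 ^ 2 * ‖a‖ ^ 2 := by positivity
  have hp3 : 0 ≤ n * ‖a‖ ^ 2 := by positivity
  have hp4 : 0 ≤ ‖a‖ ^ 2 := by positivity
  have hp5 : 0 ≤ K2 * σ := by positivity
  have hp6 : 0 ≤ K1 ^ 2 * σ := by positivity
  have hfin : 4 * n * σ + 4 * (K2 * ‖a‖ ^ 2) + 6 * (K1 ^ 2 * ‖a‖ ^ 2) ≤
      (4 * n + 4 * K2 + 6 * K1 ^ 2 + 1) * (σ + ‖a‖ ^ 2) := by nlinarith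
  refine le_trans ?_ hfin
  rw [abs_le]
  constructor
  · linarith [hx.1, hx.2, hy.1, hy.2]
  · linarith [hx.1, hx.2, hy.1, hy.2]

end Pool.Agent.Helper51.LU
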